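import Pool.Agent.W223.PL.Stms

/-! # MIN: a small coprime relation for all but few of the points -/

set_option autoImplicit false

namespace Pool.Agent.W32.PL.MIN

open Polynomial Pool.Agent.W223.HZ Pool.Agent.W223.PL

/-- clearing denominators -/
lemma clear (p : ℚ[X]) : ∃ (N : ℤ) (P : ℤ[X]), N ≠ 0 ∧
    P.map (Int.castRingHom ℚ) = C (N : ℚ) * p := by
  obtain ⟨b, hb0, hb⟩ := IsLocalization.integerNormalization_spec (nonZeroDivisors ℤ) p
  refine ⟨b, IsLocalization.integerNormalization (nonZeroDivisors ℤ) p,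
    nonZeroDivisors.ne_zero hb0, ?_⟩
  have h1 : algebraMap ℤ ℚ = Int.castRingHom ℚ := rfl
  rw [h1] at hb
  rw [hb]
  ext k
  rw [coeff_smul, coeff_C_mul]
  simp

lemma map_inj {P Q : ℤ[X]} (h : P.map (Int.castRingHom ℚ) = Q.map (Int.castRingHom ℚ)) : P = Q :=
  Polynomial.map_injective _ (RingHom.injective_int _) h

lemma split (A B : ℤ[X]) (h0 : A ≠ 0 ∨ B ≠ 0)
    (hnc : ¬ IsCoprime (A.map (Int.castRingHom ℚ)) (B.map (Int.castRingHom ℚ))) :
    ∃ (N : ℤ) (G a b : ℤ[X]), N ≠ 0 ∧ 1 ≤ G.natDegree ∧ C N * A = G * a ∧ C N * B = G * b ∧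
      (a ≠ 0 ∨ b ≠ 0) := by
  classical
  obtain ⟨A', hA'⟩ : ∃ A', A' = A.map (Int.castRingHom ℚ) := ⟨_, rfl⟩
  obtain ⟨B', hB'⟩ : ∃ B', B' = B.map (Int.castRingHom ℚ) := ⟨_, rfl⟩
  rw [← hA', ← hB'] at hnc
  have hinj : Function.Injective (Int.castRingHom ℚ) := RingHom.injective_int _
  have h0' : A' ≠ 0 ∨ B' ≠ 0 := by
    rcases h0 with h | h
    · left
      rw [hA']
      exact (Polynomial.map_ne_zero_iff hinj).2 h
    · right
      rw [hB']
      exact (Polynomial.map_ne_zero_iff hinj).2 h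
  rw [← EuclideanDomain.gcd_isUnit_iff] at hnc
  obtain ⟨g, hg⟩ : ∃ g, g = EuclideanDomain.gcd A' B' := ⟨_, rfl⟩
  rw [← hg] at hnc
  obtain ⟨a, ha⟩ : g ∣ A' := by rw [hg]; exact EuclideanDomain.gcd_dvd_left _ _
  obtain ⟨b, hb⟩ : g ∣ B' := by rw [hg]; exact EuclideanDomain.gcd_dvd_right _ _
  have hg0 : g ≠ 0 := by
    rintro rfl
    rw [zero_mul] at ha hb
    rcases h0' with h | h
    · exact h ha
    · exact h hb
  have hgd : 1 ≤ g.natDegree := by
    by_contra hlt
    have h1 : g.natDegree = 0 := by omega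
    rw [Polynomial.natDegree_eq_zero] at h1
    obtain ⟨c, hc⟩ := h1
    apply hnc
    rw [← hc, Polynomial.isUnit_C]
    rw [isUnit_iff_ne_zero]
    rintro rfl
    rw [C_0] at hc
    exact hg0 hc.symm
  obtain ⟨N1, G, hN1, hG⟩ := clear g
  obtain ⟨N2, a1, hN2, ha1⟩ := clear a
  obtain ⟨N3, b1, hN3, hb1⟩ := clear b
  refine ⟨N1 * N2 * N3, G, C N3 * a1, C N2 * b1, mul_ne_zero (mul_ne_zero hN1 hN2) hN3, ?_, ?_, ?_,
    ?_⟩
  · have h1 : (G.map (Int.castRingHom ℚ)).natDegree = G.natDegree :=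
      Polynomial.natDegree_map_eq_of_injective hinj G
    rw [← h1, hG, Polynomial.natDegree_C_mul (by exact_mod_cast hN1)]
    exact hgd
  · apply map_inj
    rw [Polynomial.map_mul, Polynomial.map_mul, Polynomial.map_mul, Polynomial.map_C,
      Polynomial.map_C, ← hA', hG, ha1, ha]
    simp only [Int.coe_castRingHom, Int.cast_mul, C_mul]
    ring
  · apply map_inj
    rw [Polynomial.map_mul, Polynomial.map_mul, Polynomial.map_mul, Polynomial.map_C,
      Polynomial.map_C, ← hB', hG, hb1, hb]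
    simp only [Int.coe_castRingHom, Int.cast_mul, C_mul]
    ring
  · rcases h0' with h | h
    · left
      have : a ≠ 0 := by
        rintro rfl
        rw [mul_zero] at ha
        exact h ha
      refine mul_ne_zero (by rwa [Ne, C_eq_zero]) ?_
      rintro rfl
      rw [Polynomial.map_zero] at ha1
      exact this (by
        have := mul_eq_zero.1 ha1.symm
        rcases this with h' | h'
        · rw [C_eq_zero] at h'
          exact absurd (by exact_mod_cast h') hN2
        · exact h')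
    · right
      have : b ≠ 0 := by
        rintro rfl
        rw [mul_zero] at hb
        exact h hb
      refine mul_ne_zero (by rwa [Ne, C_eq_zero]) ?_
      rintro rfl
      rw [Polynomial.map_zero] at hb1
      exact this (by
        have := mul_eq_zero.1 hb1.symm
        rcases this with h' | h'
        · rw [C_eq_zero] at h'
          exact absurd (by exact_mod_cast h') hN3
        · exact h')

/-- polynomials from a vector -/
lemma ofv1 (r : ℕ) (hr : 1 ≤ r) (w : Fin r → ℤ) : ∃ A : ℤ[X], A.natDegree < r ∧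
    (∀ k, A.coeff k = 0 ∨ ∃ j, A.coeff k = w j) ∧ (w ≠ 0 → A ≠ 0) ∧
    ∀ t, A.eval t = ∑ j : Fin r, w j * t ^ (j : ℕ) := by
  have hco : ∀ k, (∑ j : Fin r, C (w j) * X ^ (j : ℕ)).coeff k =
      if h : k < r then w ⟨k, h⟩ else 0 := by
    intro k
    rw [finsetSum_coeff]
    simp only [coeff_C_mul, coeff_X_pow, mul_ite, mul_one, mul_zero]
    by_cases h : k < r
    · rw [dif_pos h, Finset.sum_eq_single (⟨k, h⟩ : Fin r)]
      · simp
      · intro j _ hj
        rw [if_neg]
        intro h'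
        exact hj (Fin.ext h'.symm)
      · intro h'
        exact absurd (Finset.mem_univ _) h'
    · rw [dif_neg h]
      refine Finset.sum_eq_zero fun j _ => if_neg ?_
      intro h'
      exact h (h' ▸ j.2)
  refine ⟨∑ j : Fin r, C (w j) * X ^ (j : ℕ), ?_, fun k => ?_, fun hw h0 => ?_, fun t => ?_⟩
  · refine lt_of_le_of_lt ((Polynomial.natDegree_le_iff_coeff_eq_zero (n := r - 1)).2
      fun k hk => ?_) (by omega : r - 1 < r)
    rw [hco, dif_neg (by omega)]
  · rw [hco]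
    by_cases h : k < r
    · rw [dif_pos h]
      exact Or.inr ⟨_, rfl⟩
    · rw [dif_neg h]
      exact Or.inl rfl
  · apply hw
    funext j
    have h1 := hco j
    rw [h0, coeff_zero, dif_pos j.2] at h1
    exact h1.symm
  · rw [eval_finsetSum]
    simp only [eval_mul, eval_C, eval_pow, eval_X]

/-- a relation from a kernel vector -/
lemma ofv (r : ℕ) (hr : 1 ≤ r) (v : Fin r ⊕ Fin r → ℤ) (hv : v ≠ 0) (H : ℝ) (hH : 0 ≤ H)
    (hb : ∀ j, |(v j : ℝ)| ≤ H) : ∃ A B : ℤ[X], (A ≠ 0 ∨ B ≠ 0) ∧ A.natDegree < r ∧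
    B.natDegree < r ∧ (∀ k, |(A.coeff k : ℝ)| ≤ H) ∧ (∀ k, |(B.coeff k : ℝ)| ≤ H) ∧
    ∀ x y t : ℤ, ∑ j : Fin r ⊕ Fin r, (Sum.elim (fun j : Fin r => x * t ^ (j : ℕ))
      (fun j : Fin r => y * t ^ (j : ℕ)) j) * v j = x * A.eval t + y * B.eval t := by
  obtain ⟨A, hA1, hA2, hA3, hA4⟩ := ofv1 r hr (fun j => v (Sum.inl j))
  obtain ⟨B, hB1, hB2, hB3, hB4⟩ := ofv1 r hr (fun j => v (Sum.inr j))
  refine ⟨A, B, ?_, hA1, hB1, fun k => ?_, fun k => ?_, fun x y t => ?_⟩
  · by_contra hcon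
    push Not at hcon
    apply hv
    funext j
    rcases j with j | j
    · by_contra hne
      exact hA3 (fun h => hne (congrFun h j)) hcon.1
    · by_contra hne
      exact hB3 (fun h => hne (congrFun h j)) hcon.2
  · rcases hA2 k with h | ⟨j, h⟩
    · rw [h]
      simpa using hH
    · rw [h]
      exact hb _
  · rcases hB2 k with h | ⟨j, h⟩
    · rw [h]
      simpa using hH
    · rw [h]
      exact hb _
  · rw [Fintype.sum_sum_type]
    simp only [Sum.elim_inl, Sum.elim_inr]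
    rw [hA4, hB4, Finset.mul_sum, Finset.mul_sum]
    congr 1
    · exact Finset.sum_congr rfl fun j _ => by ring
    · exact Finset.sum_congr rfl fun j _ => by ring

/-- a kernel vector from a relation -/
lemma tov (r : ℕ) (A B : ℤ[X]) (h0 : A ≠ 0 ∨ B ≠ 0) (hA : A.natDegree < r) (hB : B.natDegree < r) :
    ∃ v : Fin r ⊕ Fin r → ℤ, v ≠ 0 ∧
    ∀ x y t : ℤ, ∑ j : Fin r ⊕ Fin r, (Sum.elim (fun j : Fin r => x * t ^ (j : ℕ))
      (fun j : Fin r => y * t ^ (j : ℕ)) j) * v j = x * A.eval t + y * B.eval t := by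
  refine ⟨Sum.elim (fun j => A.coeff j) (fun j => B.coeff j), ?_, fun x y t => ?_⟩
  · intro h
    rcases h0 with h' | h'
    · have := congrFun h (Sum.inl ⟨A.natDegree, hA⟩)
      simp only [Sum.elim_inl, Pi.zero_apply, coeff_natDegree] at this
      exact h' (Polynomial.leadingCoeff_eq_zero.1 this)
    · have := congrFun h (Sum.inr ⟨B.natDegree, hB⟩)
      simp only [Sum.elim_inr, Pi.zero_apply, coeff_natDegree] at this
      exact h' (Polynomial.leadingCoeff_eq_zero.1 this)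
  · rw [Fintype.sum_sum_type]
    simp only [Sum.elim_inl, Sum.elim_inr]
    rw [Polynomial.eval_eq_sum_range' hA, Polynomial.eval_eq_sum_range' hB, Finset.mul_sum,
      Finset.mul_sum, ← Fin.sum_univ_eq_sum_range (fun i => x * (A.coeff i * t ^ i)) r,
      ← Fin.sum_univ_eq_sum_range (fun i => y * (B.coeff i * t ^ i)) r]
    congr 1
    · exact Finset.sum_congr rfl fun j _ => by ring
    · exact Finset.sum_congr rfl fun j _ => by ring

/-- the property of the induction -/
def Pr (m : ℕ) (T : Finset ℤ) (x y : ℤ → ℤ) (r : ℕ) : Prop :=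
  1 ≤ r ∧ r ≤ m ∧ ∃ T1 ⊆ T, (T \ T1).card ≤ m * (m - r) ∧ ∃ A B : ℤ[X], (A ≠ 0 ∨ B ≠ 0) ∧
    A.natDegree < r ∧ B.natDegree < r ∧ ∀ τ ∈ T1, x τ * A.eval τ + y τ * B.eval τ = 0

/-- one step down -/
lemma down (m : ℕ) (T : Finset ℤ) (x y : ℤ → ℤ) (r : ℕ) (hr1 : 1 ≤ r) (hrm : r ≤ m)
    (T1 : Finset ℤ) (hT1 : T1 ⊆ T) (hc : (T \ T1).card ≤ m * (m - r)) (A B : ℤ[X])
    (h0 : A ≠ 0 ∨ B ≠ 0) (hA : A.natDegree < r) (hB : B.natDegree < r)
    (hrel : ∀ τ ∈ T1, x τ * A.eval τ + y τ * B.eval τ = 0)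
    (hnc : ¬ IsCoprime (A.map (Int.castRingHom ℚ)) (B.map (Int.castRingHom ℚ))) :
    Pr m T x y (r - 1) := by
  classical
  obtain ⟨N, G, a, b, hN, hG, hGa, hGb, hab⟩ := split A B h0 hnc
  have hG0 : G ≠ 0 := by
    rintro rfl
    simp at hG
  have hCN : (C N : ℤ[X]) ≠ 0 := by rwa [Ne, C_eq_zero]
  have hda : a ≠ 0 → G.natDegree + a.natDegree = A.natDegree := by
    intro h
    have := congrArg Polynomial.natDegree hGa
    rw [Polynomial.natDegree_C_mul hN, Polynomial.natDegree_mul hG0 h] at this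
    exact this.symm
  have hdb : b ≠ 0 → G.natDegree + b.natDegree = B.natDegree := by
    intro h
    have := congrArg Polynomial.natDegree hGb
    rw [Polynomial.natDegree_C_mul hN, Polynomial.natDegree_mul hG0 h] at this
    exact this.symm
  have hGr : G.natDegree < r := by
    rcases hab with h | h
    · have := hda h
      omega
    · have := hdb h
      omega
  refine ⟨by omega, by omega, T1.filter (fun τ => G.eval τ ≠ 0),
    (Finset.filter_subset _ _).trans hT1, ?_, a, b, hab, ?_, ?_, ?_⟩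
  · have hsub : T \ T1.filter (fun τ => G.eval τ ≠ 0) ⊆ (T \ T1) ∪ G.roots.toFinset := by
      intro τ hτ
      rw [Finset.mem_sdiff, Finset.mem_filter] at hτ
      rw [Finset.mem_union, Finset.mem_sdiff]
      by_cases h : τ ∈ T1
      · right
        rw [Multiset.mem_toFinset, Polynomial.mem_roots hG0]
        by_contra h'
        exact hτ.2 ⟨h, h'⟩
      · left
        exact ⟨hτ.1, h⟩
    refine (Finset.card_le_card hsub).trans ((Finset.card_union_le _ _).trans ?_)
    have h1 : G.roots.toFinset.card ≤ m :=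
      (Multiset.toFinset_card_le _).trans ((Polynomial.card_roots' G).trans (by omega))
    have h2 : m - (r - 1) = m - r + 1 := by omega
    rw [h2, mul_add, mul_one]
    omega
  · by_cases h : a = 0
    · rw [h, natDegree_zero]
      omega
    · have := hda h
      omega
  · by_cases h : b = 0
    · rw [h, natDegree_zero]
      omega
    · have := hdb h
      omega
  · intro τ hτ
    rw [Finset.mem_filter] at hτ
    have h1 := hrel τ hτ.1
    have h2 : N * A.eval τ = G.eval τ * a.eval τ := by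
      have := congrArg (fun p : ℤ[X] => p.eval τ) hGa
      simpa using this
    have h3 : N * B.eval τ = G.eval τ * b.eval τ := by
      have := congrArg (fun p : ℤ[X] => p.eval τ) hGb
      simpa using this
    apply mul_left_cancel₀ hτ.2
    linear_combination N * h1 - x τ * h2 - y τ * h3

theorem t (hR : Pool.Agent.W223.HZ.StmtREL) : Pool.Agent.W223.PL.StmtMIN := by
  classical
  intro m hm T x y H hH hb hdet
  have hmH : (1 : ℝ) ≤ 2 * m * H := by
    have : (1 : ℝ) ≤ m := by exact_mod_cast hm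
    nlinarith
  have hbig : (1 : ℝ) ≤ (2 * m * H) ^ (2 * m) := one_le_pow₀ hmH
  have hempty : T.card ≤ m ^ 2 → ∃ T' ⊆ T, (T \ T').card ≤ m ^ 2 ∧ ∃ A B : ℤ[X],
    (A ≠ 0 ∨ B ≠ 0) ∧ A.natDegree < m ∧
    B.natDegree < m ∧ (∀ k, |(A.coeff k : ℝ)| ≤ (2 * m * H) ^ (2 * m)) ∧
    (∀ k, |(B.coeff k : ℝ)| ≤ (2 * m * H) ^ (2 * m)) ∧
    IsCoprime (A.map (Int.castRingHom ℚ)) (B.map (Int.castRingHom ℚ)) ∧
    ∀ τ ∈ T', x τ * A.eval τ + y τ * B.eval τ = 0 := by
    intro hT
    refine ⟨∅, Finset.empty_subset _, by rwa [Finset.sdiff_empty], 1, 0, Or.inl one_ne_zero,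
      by rw [natDegree_one]; omega, by rw [natDegree_zero]; omega, fun k => ?_, fun k => ?_, ?_,
      fun τ hτ => absurd hτ (Finset.notMem_empty _)⟩
    · rw [coeff_one]
      split_ifs
      · simpa using hbig
      · simp only [Int.cast_zero, abs_zero]
        linarith
    · rw [coeff_zero]
      simp only [Int.cast_zero, abs_zero]
      linarith
    · rw [Polynomial.map_one]
      exact isCoprime_one_left
  rcases T.eq_empty_or_nonempty with hT | hT
  · exact hempty (by rw [hT]; simp)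
  -- the relation for `r = m`
  have hR' := @hR
  have hPm : Pr m T x y m := by
    have : Nonempty T := hT.to_subtype
    obtain ⟨v, hv, hv1, hv2⟩ := @hR T (Fin m ⊕ Fin m) _ _ (fun τ => Sum.elim
      (fun j : Fin m => x τ * (τ : ℤ) ^ (j : ℕ)) (fun j : Fin m => y τ * (τ : ℤ) ^ (j : ℕ))) H hH
      inferInstance (by
        intro τ j
        rcases j with j | j
        · exact (hb τ τ.2 j j.2).1
        · exact (hb τ τ.2 j j.2).2) (by
        intro f
        exact hdet (fun i => (f i : ℤ)) fun i => (f i).2)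
    obtain ⟨A, B, h0, hA, hB, -, -, he⟩ := ofv m hm v hv _ (le_trans (abs_nonneg _)
      (hv2 (Sum.inl ⟨0, by omega⟩))) hv2
    refine ⟨hm, le_rfl, T, Finset.Subset.refl _, by simp, A, B, h0, hA, hB, fun τ hτ => ?_⟩
    rw [← he]
    exact hv1 ⟨τ, hτ⟩
  obtain ⟨hr1, hrm, T1, hT1, hc, A0, B0, h00, hA0, hB0, hrel0⟩ := Nat.find_spec
    (⟨m, hPm⟩ : ∃ r, Pr m T x y r)
  have hmin := fun r' => Nat.find_min (m := r') (⟨m, hPm⟩ : ∃ r, Pr m T x y r)
  generalize Nat.find (⟨m, hPm⟩ : ∃ r, Pr m T x y r) = r at *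
  have hcm : (T \ T1).card ≤ m ^ 2 := by
    refine hc.trans ?_
    rw [pow_two]
    exact Nat.mul_le_mul_left _ (Nat.sub_le _ _)
  rcases T1.eq_empty_or_nonempty with hT1e | hT1n
  · apply hempty
    rw [hT1e, Finset.sdiff_empty] at hcm
    exact hcm
  have : Nonempty T1 := hT1n.to_subtype
  obtain ⟨u, hu, hu1⟩ := tov r A0 B0 h00 hA0 hB0
  obtain ⟨v, hv, hv1, hv2⟩ := @hR T1 (Fin r ⊕ Fin r) _ _ (fun τ => Sum.elim
      (fun j : Fin r => x τ * (τ : ℤ) ^ (j : ℕ)) (fun j : Fin r => y τ * (τ : ℤ) ^ (j : ℕ))) H hH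
      inferInstance (by
        intro τ j
        rcases j with j | j
        · exact (hb τ (hT1 τ.2) j (lt_of_lt_of_le j.2 hrm)).1
        · exact (hb τ (hT1 τ.2) j (lt_of_lt_of_le j.2 hrm)).2) (by
        intro f
        rw [← Matrix.exists_mulVec_eq_zero_iff]
        refine ⟨u, hu, ?_⟩
        funext i
        rw [Pi.zero_apply, ← hrel0 (f i) (f i).2, ← hu1]
        rfl)
  obtain ⟨A, B, h0, hA, hB, hAc, hBc, he⟩ := ofv r hr1 v hv _ (le_trans (abs_nonneg _)
      (hv2 (Sum.inl ⟨0, by omega⟩))) hv2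
  have hrel : ∀ τ ∈ T1, x τ * A.eval τ + y τ * B.eval τ = 0 := by
    intro τ hτ
    rw [← he]
    exact hv1 ⟨τ, hτ⟩
  have hbd : ((Fintype.card (Fin r ⊕ Fin r) : ℝ) * H) ^ (Fintype.card (Fin r ⊕ Fin r)) ≤
      (2 * m * H) ^ (2 * m) := by
    rw [Fintype.card_sum, Fintype.card_fin]
    have h1 : (1 : ℝ) ≤ r := by exact_mod_cast hr1
    have h2 : (r : ℝ) ≤ m := by exact_mod_cast hrm
    have h3 : ((r + r : ℕ) : ℝ) * H ≤ 2 * m * H := by
      push_cast
      nlinarith
    have h4 : (0 : ℝ) ≤ ((r + r : ℕ) : ℝ) * H := by positivity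
    refine (pow_le_pow_left₀ h4 h3 _).trans ?_
    exact pow_le_pow_right₀ hmH (by omega)
  refine ⟨T1, hT1, hcm, A, B, h0, by omega, by omega, fun k => (hAc k).trans hbd,
    fun k => (hBc k).trans hbd, ?_, hrel⟩
  by_contra hnc
  exact hmin (r - 1) (by omega) (down m T x y r hr1 hrm T1 hT1 hc A B h0 hA hB hrel hnc)

end Pool.Agent.W32.PL.MIN
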